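import Pool.Agent.Helper55.RG.Spec2

/-!
# RG swarm, part DSC: descent of elements which are equal up to squares of `F L`
-/

set_option autoImplicit false
set_option linter.all false

open Polynomial

namespace Pool.Agent.Helper46.RG.DSC

open Pool.Agent.Helper55.RG Pool.Agent.TH115.GD

/-- The field generated by `F` and `L` is the span of `L` over the constants `k'`. -/
theorem mem_span {k' K F Ω : Type} [Field k'] [Field K] [Field F] [Field Ω] [Algebra k'[X] F]
    [IsFractionRing k'[X] F] [Algebra K F] [Algebra F Ω] [Algebra K Ω] [IsScalarTower K F Ω]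
    [Algebra.IsAlgebraic K Ω] (L : IntermediateField K Ω) (t : K)
    (ht : algebraMap K F t = algebraMap k'[X] F X)
    [Algebra k' Ω] (hφ : ∀ c : k', algebraMap k' Ω c = algebraMap F Ω (algebraMap k'[X] F (C c)))
    (v : Ω) (hv : v ∈ IntermediateField.adjoin F (L : Set Ω)) :
    v ∈ Submodule.span k' (L : Set Ω) := by
  let A : Subalgebra k' Ω := Algebra.adjoin k' (L : Set Ω)
  have hA : ∀ x : Ω, x ∈ A → x ∈ Submodule.span k' (L : Set Ω) := by
    intro x hx
    have h1 : x ∈ Subalgebra.toSubmodule (Algebra.adjoin k' (L : Set Ω)) := hx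
    rw [Algebra.adjoin_eq_span] at h1
    have h2 : (Submonoid.closure (L : Set Ω) : Set Ω) = (L : Set Ω) := by
      have := Submonoid.closure_eq (L.toSubfield.toSubmonoid)
      exact congrArg (fun S : Submonoid Ω => (S : Set Ω)) this
    rw [h2] at h1
    exact h1
  have hL : ∀ x : Ω, x ∈ L → x ∈ A := fun x hx => Algebra.subset_adjoin hx
  have hK : ∀ x : K, algebraMap K Ω x ∈ A := fun x => hL _ (L.algebraMap_mem x)
  have hinv : ∀ x : Ω, x ∈ A → x⁻¹ ∈ A := by
    intro x hx
    by_cases hx0 : x = 0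
    · rw [hx0, inv_zero]; exact A.zero_mem
    have halg : IsAlgebraic K x := Algebra.IsAlgebraic.isAlgebraic x
    have h1 : x⁻¹ ∈ Algebra.adjoin K {x} := by
      have hint : IsIntegral K x := halg.isIntegral
      exact Subalgebra.inv_mem_of_algebraic (K := K) (L := Ω) (A := Algebra.adjoin K {x})
        (x := ⟨x, Algebra.subset_adjoin rfl⟩) halg
    refine Algebra.adjoin_induction (p := fun y _ => y ∈ A) ?_ ?_ ?_ ?_ h1
    · intro y hy
      rw [Set.mem_singleton_iff] at hy
      rw [hy]; exact hx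
    · intro r; exact hK r
    · intro a b _ _ ha hb; exact A.add_mem ha hb
    · intro a b _ _ ha hb; exact A.mul_mem ha hb
  have hp : ∀ p : k'[X], algebraMap F Ω (algebraMap k'[X] F p) ∈ A := by
    intro p
    induction p using Polynomial.induction_on' with
    | add p q hp hq => rw [map_add, map_add]; exact A.add_mem hp hq
    | monomial n c =>
      rw [← C_mul_X_pow_eq_monomial, map_mul, map_mul, map_pow, map_pow]
      refine A.mul_mem ?_ (A.pow_mem ?_ n)
      · rw [← hφ]; exact A.algebraMap_mem c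
      · rw [← ht, ← IsScalarTower.algebraMap_apply K F Ω]
        exact hK t
  have hF : ∀ x : F, algebraMap F Ω x ∈ A := by
    intro x
    obtain ⟨n, d, hd, rfl⟩ := IsFractionRing.div_surjective (A := k'[X]) x
    rw [map_div₀, div_eq_mul_inv]
    exact A.mul_mem (hp n) (hinv _ (hp d))
  apply hA
  refine IntermediateField.adjoin_induction (F := F) (p := fun y _ => y ∈ A) ?_ ?_ ?_ ?_ ?_ hv
  · intro y hy; exact hL y hy
  · intro x; exact hF x
  · intro a b _ _ ha hb; exact A.add_mem ha hb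
  · intro a _ ha; exact hinv a ha
  · intro a b _ _ ha hb; exact A.mul_mem ha hb

/-- The main argument: `v` with `v ^ 2 ∈ L` in the span of `L` over `k'`. -/
theorem desc {k k' K Ω : Type} [Field k] [Field k'] [Field K] [Field Ω] [Algebra k k']
    [Algebra K Ω] [IsGalois K Ω] [Algebra k' Ω] (L : IntermediateField K Ω)
    (hs : ∀ τ : Ω ≃ₐ[K] Ω, ∃ s : k' ≃ₐ[k] k', ∀ c : k', τ (algebraMap k' Ω c) =
      algebraMap k' Ω (s c))
    (hL : ∀ c : k', algebraMap k' Ω c ∈ L → c ∈ Set.range (algebraMap k k'))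
    (v : Ω) (hv0 : v ≠ 0) (hv2 : v ^ 2 ∈ L) (hv : v ∈ Submodule.span k' (L : Set Ω)) :
    ∃ (c : k) (w : Ω), c ≠ 0 ∧ w ∈ L ∧ v ^ 2 = algebraMap k' Ω (algebraMap k k' c) * w ^ 2 := by
  classical
  have hfix : ∀ x : Ω, (∀ τ : Ω ≃ₐ[K] Ω, τ ∈ L.fixingSubgroup → τ x = x) → x ∈ L := by
    intro x hx
    have h1 := InfiniteGalois.fixedField_fixingSubgroup L
    rw [← h1, IntermediateField.mem_fixedField_iff]
    exact hx
  obtain ⟨b, hbL, hbs, hbi⟩ := exists_linearIndependent k' (L : Set Ω)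
  rw [← hbs, Finsupp.mem_span_iff_linearCombination] at hv
  obtain ⟨l, hl⟩ := hv
  have hl0 : l ≠ 0 := by
    rintro rfl
    rw [map_zero] at hl
    exact hv0 hl.symm
  obtain ⟨b0, hb0⟩ := Finsupp.ne_iff.1 hl0
  rw [Finsupp.zero_apply] at hb0
  have key : ∀ τ : Ω ≃ₐ[K] Ω, τ ∈ L.fixingSubgroup →
      (τ v = v ∧ τ (algebraMap k' Ω (l b0)) = algebraMap k' Ω (l b0)) ∨
      (τ v = -v ∧ τ (algebraMap k' Ω (l b0)) = -algebraMap k' Ω (l b0)) := by
    intro τ hτ
    have hτL : ∀ x : Ω, x ∈ L → τ x = x := fun x hx => hτ ⟨x, hx⟩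
    obtain ⟨s, hs⟩ := hs τ
    have h1 : τ v = Finsupp.linearCombination k' (Subtype.val : b → Ω)
        (l.mapRange s (map_zero s)) := by
      rw [← hl, Finsupp.linearCombination_apply, Finsupp.linearCombination_apply, map_finsuppSum,
        Finsupp.sum_mapRange_index (h := fun (a : b) (r : k') => r • (a : Ω))
          (fun a => zero_smul _ _)]
      refine Finsupp.sum_congr fun x hx => ?_
      rw [Algebra.smul_def, Algebra.smul_def, map_mul, hs, hτL _ (hbL x.2)]
    have h2 : (τ v) ^ 2 = v ^ 2 := by rw [← map_pow, hτL _ hv2]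
    rcases sq_eq_sq_iff_eq_or_eq_neg.1 h2 with h | h
    · left
      refine ⟨h, ?_⟩
      rw [hs]
      have h3 : l.mapRange s (map_zero s) = l := by
        apply hbi
        rw [← h1, h, hl]
      have h4 := DFunLike.congr_fun h3 b0
      rw [Finsupp.mapRange_apply] at h4
      rw [h4]
    · right
      refine ⟨h, ?_⟩
      rw [hs]
      have h3 : l.mapRange s (map_zero s) = -l := by
        apply hbi
        rw [← h1, h, map_neg, hl]
      have h4 := DFunLike.congr_fun h3 b0
      rw [Finsupp.mapRange_apply, Finsupp.neg_apply] at h4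
      rw [h4, map_neg]
  set u : Ω := algebraMap k' Ω (l b0) with hu
  have hu0 : u ≠ 0 := (_root_.map_ne_zero _).2 hb0
  have hu2 : algebraMap k' Ω ((l b0) ^ 2) ∈ L := by
    apply hfix
    intro τ hτ
    rw [map_pow, map_pow, ← hu]
    rcases key τ hτ with ⟨_, h⟩ | ⟨_, h⟩
    · rw [h]
    · rw [h, neg_sq]
  obtain ⟨c, hc⟩ := hL _ hu2
  refine ⟨c, v / u, ?_, ?_, ?_⟩
  · rintro rfl
    rw [map_zero] at hc
    exact hb0 (pow_eq_zero_iff (two_ne_zero) |>.1 hc.symm)
  · apply hfix
    intro τ hτ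
    rw [map_div₀]
    rcases key τ hτ with ⟨h, h'⟩ | ⟨h, h'⟩
    · rw [h, h']
    · rw [h, h', neg_div_neg_eq]
  · rw [hc, map_pow, ← hu, div_pow, mul_div_cancel₀ _ (pow_ne_zero 2 hu0)]

theorem main : S_DSC := by
  intro k k' K F _ _ _ _ _ _ _ _ _ _ hT L _ hL z z' hz hz' hz0 hz'0 v hv hzv
  haveI := hT.sep
  haveI := hT.fracK
  haveI : IsSepClosed k' := IsSepClosure.sep_closed k
  haveI : IsSepClosure K (Sep F) := sepKΩ hT.map
  haveI : Algebra.IsSeparable K (Sep F) := IsSepClosure.separable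
  haveI : IsGalois K (Sep F) := inferInstance
  letI aΩ : Algebra k' (Sep F) := ((em k' F (Sep F)).comp C).toAlgebra
  have ht : algebraMap K F (algebraMap k[X] K X) = algebraMap k'[X] F X := by
    rw [hT.map, map_X]
  have h1 : v ∈ Submodule.span k' (L : Set (Sep F)) :=
    mem_span L _ ht (fun c => rfl) v hv
  have hv0 : v ≠ 0 := by
    rintro rfl
    rw [zero_pow two_ne_zero, mul_zero] at hzv
    exact hz0 hzv
  have hv2 : v ^ 2 ∈ L := by
    have : v ^ 2 = z / z' := by
      rw [hzv, mul_div_cancel_left₀ _ hz'0]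
    rw [this]
    exact L.div_mem hz hz'
  obtain ⟨c, w, hc, hw, h⟩ := desc (k := k) (k' := k') L (fun τ => by
    obtain ⟨s, hs⟩ := restr hT.map τ
    refine ⟨s, fun c => ?_⟩
    have := hs (C c)
    rw [map_C] at this
    exact this) hL v hv0 hv2 h1
  refine ⟨c, w, hc, hw, ?_⟩
  rw [hzv, h, mul_assoc]
  congr 2
  show algebraMap F (Sep F) (algebraMap k'[X] F (C (algebraMap k k' c))) =
    algebraMap K (Sep F) (algebraMap k[X] K (C c))
  rw [IsScalarTower.algebraMap_apply K F (Sep F), hT.map, map_C]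

end Pool.Agent.Helper46.RG.DSC
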