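import Pool.Agent.Helper55.RG.Spec4
import Pool.Agent.Helper46.RG.DSC

/-!
# RG swarm, part DSN: descent of elements which are equal up to squares of `F L`
-/

set_option autoImplicit false
set_option linter.all false

open Polynomial

namespace Pool.Agent.Helper46.RG.DSN

open Pool.Agent.Helper55.RG Pool.Agent.TH115.GD Pool.Agent.Helper46.RG.DSC

/-- The main argument: `v` with `v ^ 2 ∈ L` in the span of `L` over `k'`. -/
theorem desc' {k k' K Ω : Type} [Field k] [Field k'] [Field K] [Field Ω] [Algebra k k']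
    [Algebra K Ω] [IsGalois K Ω] [Algebra k' Ω] (L : IntermediateField K Ω)
    (hs : ∀ τ : Ω ≃ₐ[K] Ω, ∃ s : k' ≃ₐ[k] k', ∀ c : k', τ (algebraMap k' Ω c) =
      algebraMap k' Ω (s c))
    (v : Ω) (hv0 : v ≠ 0) (hv2 : v ^ 2 ∈ L) (hv : v ∈ Submodule.span k' (L : Set Ω)) :
    ∃ (c : k') (w : Ω), c ≠ 0 ∧ algebraMap k' Ω c ∈ L ∧ w ∈ L ∧
      v ^ 2 = algebraMap k' Ω c * w ^ 2 := by
  classical
  have hfix : ∀ x : Ω, (∀ τ : Ω ≃ₐ[K] Ω, τ ∈ L.fixingSubgroup → τ x = x) → x ∈ L := by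
    intro x hx
    have h1 := InfiniteGalois.fixedField_fixingSubgroup L
    rw [← h1, IntermediateField.mem_fixedField_iff]
    exact hx
  obtain ⟨b, hbL, hbs, hbi⟩ := exists_linearIndependent k' (L : Set Ω)
  rw [← hbs, Finsupp.mem_span_iff_linearCombination] at hv
  obtain ⟨l, hl⟩ := hv
  have hl0 : l ≠ 0 := by
    rintro rfl
    rw [map_zero] at hl
    exact hv0 hl.symm
  obtain ⟨b0, hb0⟩ := Finsupp.ne_iff.1 hl0
  rw [Finsupp.zero_apply] at hb0
  have key : ∀ τ : Ω ≃ₐ[K] Ω, τ ∈ L.fixingSubgroup →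
      (τ v = v ∧ τ (algebraMap k' Ω (l b0)) = algebraMap k' Ω (l b0)) ∨
      (τ v = -v ∧ τ (algebraMap k' Ω (l b0)) = -algebraMap k' Ω (l b0)) := by
    intro τ hτ
    have hτL : ∀ x : Ω, x ∈ L → τ x = x := fun x hx => hτ ⟨x, hx⟩
    obtain ⟨s, hs⟩ := hs τ
    have h1 : τ v = Finsupp.linearCombination k' (Subtype.val : b → Ω)
        (l.mapRange s (map_zero s)) := by
      rw [← hl, Finsupp.linearCombination_apply, Finsupp.linearCombination_apply, map_finsuppSum,
        Finsupp.sum_mapRange_index (h := fun (a : b) (r : k') => r • (a : Ω))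
          (fun a => zero_smul _ _)]
      refine Finsupp.sum_congr fun x hx => ?_
      rw [Algebra.smul_def, Algebra.smul_def, map_mul, hs, hτL _ (hbL x.2)]
    have h2 : (τ v) ^ 2 = v ^ 2 := by rw [← map_pow, hτL _ hv2]
    rcases sq_eq_sq_iff_eq_or_eq_neg.1 h2 with h | h
    · left
      refine ⟨h, ?_⟩
      rw [hs]
      have h3 : l.mapRange s (map_zero s) = l := by
        apply hbi
        rw [← h1, h, hl]
      have h4 := DFunLike.congr_fun h3 b0
      rw [Finsupp.mapRange_apply] at h4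
      rw [h4]
    · right
      refine ⟨h, ?_⟩
      rw [hs]
      have h3 : l.mapRange s (map_zero s) = -l := by
        apply hbi
        rw [← h1, h, map_neg, hl]
      have h4 := DFunLike.congr_fun h3 b0
      rw [Finsupp.mapRange_apply, Finsupp.neg_apply] at h4
      rw [h4, map_neg]
  set u : Ω := algebraMap k' Ω (l b0) with hu
  have hu0 : u ≠ 0 := (_root_.map_ne_zero _).2 hb0
  have hu2 : algebraMap k' Ω ((l b0) ^ 2) ∈ L := by
    apply hfix
    intro τ hτ
    rw [map_pow, map_pow, ← hu]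
    rcases key τ hτ with ⟨_, h⟩ | ⟨_, h⟩
    · rw [h]
    · rw [h, neg_sq]
  refine ⟨(l b0) ^ 2, v / u, pow_ne_zero 2 hb0, hu2, ?_, ?_⟩
  · apply hfix
    intro τ hτ
    rw [map_div₀]
    rcases key τ hτ with ⟨h, h'⟩ | ⟨h, h'⟩
    · rw [h, h']
    · rw [h, h', neg_div_neg_eq]
  · rw [map_pow, ← hu, div_pow, mul_div_cancel₀ _ (pow_ne_zero 2 hu0)]

theorem main : S_DSN := by
  intro k k' K F _ _ _ _ _ _ _ _ _ _ hT L _ z z' hz hz' hz0 hz'0 v hv hzv
  haveI := hT.sep
  haveI := hT.fracK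
  haveI : IsSepClosed k' := IsSepClosure.sep_closed k
  haveI : IsSepClosure K (Sep F) := sepKΩ hT.map
  haveI : Algebra.IsSeparable K (Sep F) := IsSepClosure.separable
  haveI : IsGalois K (Sep F) := inferInstance
  letI aΩ : Algebra k' (Sep F) := ((em k' F (Sep F)).comp C).toAlgebra
  have ht : algebraMap K F (algebraMap k[X] K X) = algebraMap k'[X] F X := by
    rw [hT.map, map_X]
  have h1 : v ∈ Submodule.span k' (L : Set (Sep F)) :=
    mem_span L _ ht (fun c => rfl) v hv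
  have hv0 : v ≠ 0 := by
    rintro rfl
    rw [zero_pow two_ne_zero, mul_zero] at hzv
    exact hz0 hzv
  have hv2 : v ^ 2 ∈ L := by
    have : v ^ 2 = z / z' := by
      rw [hzv, mul_div_cancel_left₀ _ hz'0]
    rw [this]
    exact L.div_mem hz hz'
  obtain ⟨c, w, hc, hcL, hw, h⟩ := desc' (k := k) (k' := k') L (fun τ => by
    obtain ⟨s, hs⟩ := restr hT.map τ
    refine ⟨s, fun c => ?_⟩
    have := hs (C c)
    rw [map_C] at this
    exact this) v hv0 hv2 h1
  refine ⟨c, w, hc, hcL, hw, ?_⟩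
  rw [hzv, h, mul_assoc]
  rfl

end Pool.Agent.Helper46.RG.DSN
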